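import Pool.Agent.K7.H69.LC.Stm

/-! # Project LC, job ALG (helper99): generating functions -/

set_option autoImplicit false

namespace Pool.Agent.K7.H99.LCALG

open PowerSeries Finset
open Pool.Agent.K7.H69.LC

/-- the Catalan series over `ℚ` -/
noncomputable def C : PowerSeries ℚ := PowerSeries.map (Nat.castRingHom ℚ) catalanSeries

theorem C_eq : C = 1 + X * C ^ 2 := by
  have h := congrArg (PowerSeries.map (Nat.castRingHom ℚ)) catalanSeries_sq_mul_X_add_one
  simp only [map_add, map_mul, map_pow, PowerSeries.map_X, map_one] at h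
  unfold C
  linear_combination -h

theorem C_const : constantCoeff C = 1 := by
  rw [C_eq]
  simp

noncomputable def y : PowerSeries ℚ := C - 1

theorem hC : C = 1 + y := by unfold y; ring

theorem hx : X * C ^ 2 = y := by
  have := C_eq
  unfold y
  linear_combination -this

noncomputable def u : PowerSeries ℚ := (1 - y)⁻¹

theorem hu : u * (1 - y) = 1 := by
  unfold u
  apply PowerSeries.inv_mul_cancel
  unfold y
  simp [C_const]

noncomputable def al : PowerSeries ℚ := PowerSeries.C (1 / 2) * y ^ 2 * u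
noncomputable def be : PowerSeries ℚ := PowerSeries.C (1 / 2) * y * (2 - y + y ^ 2) * u ^ 2
noncomputable def a3 : PowerSeries ℚ := PowerSeries.C (1 / 3) * y * (2 * al - y) * u
noncomputable def a2 : PowerSeries ℚ :=
  PowerSeries.C (1 / 2) * (y * (8 * al + 2 * be - 1 - 2 * y) - 3 * (1 - 3 * y) * a3) * u
noncomputable def a1 : PowerSeries ℚ :=
  (y * (8 * al + 4 * be - 1 - y) - (1 - 7 * y) * a3 - (1 - 3 * y) * a2) * u

theorem two_half : (2 : PowerSeries ℚ) * PowerSeries.C (1 / 2) = 1 := by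
  have : (2 : PowerSeries ℚ) = PowerSeries.C 2 := (map_ofNat PowerSeries.C 2).symm
  rw [this, ← map_mul]
  norm_num

theorem three_third : (3 : PowerSeries ℚ) * PowerSeries.C (1 / 3) = 1 := by
  have : (3 : PowerSeries ℚ) = PowerSeries.C 3 := (map_ofNat PowerSeries.C 3).symm
  rw [this, ← map_mul]
  norm_num

theorem e_al : 2 * al * (1 - y) = y ^ 2 := by
  unfold al
  linear_combination (y ^ 2 * u * (1 - y)) * two_half + y ^ 2 * hu

theorem e_be : 2 * be * (1 - y) ^ 2 = y * (2 - y + y ^ 2) := by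
  unfold be
  linear_combination (y * (2 - y + y ^ 2) * u ^ 2 * (1 - y) ^ 2) * two_half +
    (y * (2 - y + y ^ 2) * (u * (1 - y) + 1)) * hu

theorem e_a3 : 3 * a3 * (1 - y) = y * (2 * al - y) := by
  unfold a3
  linear_combination (y * (2 * al - y) * u * (1 - y)) * three_third + (y * (2 * al - y)) * hu

theorem e_a2 : 2 * a2 * (1 - y) = y * (8 * al + 2 * be - 1 - 2 * y) - 3 * (1 - 3 * y) * a3 := by
  unfold a2
  linear_combination ((y * (8 * al + 2 * be - 1 - 2 * y) - 3 * (1 - 3 * y) * a3) * u * (1 - y)) * two_half +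
    (y * (8 * al + 2 * be - 1 - 2 * y) - 3 * (1 - 3 * y) * a3) * hu

theorem e_a1 : a1 * (1 - y) = y * (8 * al + 4 * be - 1 - y) - (1 - 7 * y) * a3 - (1 - 3 * y) * a2 := by
  unfold a1
  linear_combination (y * (8 * al + 4 * be - 1 - y) - (1 - 7 * y) * a3 - (1 - 3 * y) * a2) * hu

/-- the `b` recurrence at `s`: `β (1 - y) = y (y + 1) - α (1 - 3 y)` -/
theorem e_be2 : be * (1 - y) = y * (y + 1) - al * (1 - 3 * y) := by
  linear_combination (PowerSeries.C (1 / 2) * u) * e_be + (PowerSeries.C (1 / 2) * u * (1 - 3 * y)) * e_al -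
    ((be * (1 - y) - (y * (y + 1) - al * (1 - 3 * y))) * 2 * PowerSeries.C (1 / 2)) * hu -
    (be * (1 - y) - (y * (y + 1) - al * (1 - 3 * y))) * two_half

noncomputable def B (s : ℕ) : PowerSeries ℚ := C ^ s * ((s : PowerSeries ℚ) ^ 2 * al + s * be)
noncomputable def A (s : ℕ) : PowerSeries ℚ :=
  C ^ s * ((s : PowerSeries ℚ) ^ 3 * a3 + (s : PowerSeries ℚ) ^ 2 * a2 + s * a1)

theorem B_rec (s : ℕ) : B (s + 1) - B s =
    X * (B (s + 2) + ((s : PowerSeries ℚ) + 1) * C ^ (s + 3) - (s : PowerSeries ℚ) * C ^ (s + 2)) := by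
  unfold B
  push_cast
  have h1 : C ^ (s + 1) = C ^ s * (1 + y) := by rw [pow_succ, ← hC]
  have h2 : X * C ^ (s + 2) = C ^ s * y := by rw [pow_add, ← hx]; ring
  have h3 : X * C ^ (s + 3) = C ^ s * y * (1 + y) := by
    rw [show s + 3 = (s + 2) + 1 by ring, pow_succ, ← mul_assoc, h2, ← hC]
  linear_combination (((s : PowerSeries ℚ) + 1) ^ 2 * al + (s + 1) * be) * h1 -
    (((s : PowerSeries ℚ) + 2) ^ 2 * al + (s + 2) * be - s) * h2 - (s + 1) * h3 +
    C ^ s * (s : PowerSeries ℚ) * e_al + C ^ s * e_be2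

theorem A_rec (s : ℕ) : A (s + 1) - A s = X * (A (s + 2) + 2 * B (s + 2) + (s : PowerSeries ℚ) * C ^ (s + 2) -
    ((s : PowerSeries ℚ) + 1) ^ 2 * C ^ (s + 3) + (s : PowerSeries ℚ) ^ 2 * C ^ (s + 2)) := by
  unfold A B
  push_cast
  have h1 : C ^ (s + 1) = C ^ s * (1 + y) := by rw [pow_succ, ← hC]
  have h2 : X * C ^ (s + 2) = C ^ s * y := by rw [pow_add, ← hx]; ring
  have h3 : X * C ^ (s + 3) = C ^ s * y * (1 + y) := by
    rw [show s + 3 = (s + 2) + 1 by ring, pow_succ, ← mul_assoc, h2, ← hC]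
  linear_combination (((s : PowerSeries ℚ) + 1) ^ 3 * a3 + (s + 1) ^ 2 * a2 + (s + 1) * a1) * h1 -
    (((s : PowerSeries ℚ) + 2) ^ 3 * a3 + (s + 2) ^ 2 * a2 + (s + 2) * a1 +
      2 * ((s + 2) ^ 2 * al + (s + 2) * be) + s + s ^ 2) * h2 + (s + 1) ^ 2 * h3 +
    C ^ s * (s : PowerSeries ℚ) ^ 2 * e_a3 + C ^ s * (s : PowerSeries ℚ) * e_a2 + C ^ s * e_a1

theorem C_pow_eq (a : ℕ) : C ^ (a + 1) = 1 + X * ∑ b ∈ range (a + 1), C ^ (b + 2) := by
  induction a with
  | zero =>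
    rw [Finset.sum_range_one, pow_one]
    exact C_eq
  | succ a ih =>
    rw [Finset.sum_range_succ, mul_add, ← add_assoc, ← ih]
    have h1 : C ^ (a + 1 + 1) = C ^ (a + 1) * C := pow_succ _ _
    have h2 : C ^ (a + 1 + 2) = C ^ (a + 1) * C ^ 2 := pow_add _ _ _
    rw [h1, h2]
    linear_combination (C ^ (a + 1)) * C_eq

theorem L_gf (m : ℕ) : ∀ a : ℕ, (L m a : ℚ) = coeff m (C ^ (a + 1)) := by
  induction m with
  | zero =>
    intro a
    rw [L, coeff_zero_eq_constantCoeff_apply, map_pow, C_const]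
    simp
  | succ m ih =>
    intro a
    rw [L, C_pow_eq, map_add, coeff_succ_X_mul, coeff_one, if_neg (Nat.succ_ne_zero m), zero_add, map_sum]
    push_cast
    exact Finset.sum_congr rfl fun b _ => ih (b + 1)

noncomputable def D (s : ℕ) : PowerSeries ℚ := ∑ g ∈ range s, ∑ c ∈ range (s - 1 - g), C ^ (g + 3 + c)

theorem D_succ (s : ℕ) : D (s + 1) = D s + (s : PowerSeries ℚ) * C ^ (s + 2) := by
  unfold D
  rw [Finset.sum_range_succ]
  have h0 : s + 1 - 1 - s = 0 := by omega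
  rw [h0, Finset.sum_range_zero, add_zero]
  have h1 : ∀ g ∈ range s, ∑ c ∈ range (s + 1 - 1 - g), C ^ (g + 3 + c) =
      ∑ c ∈ range (s - 1 - g), C ^ (g + 3 + c) + C ^ (s + 2) := by
    intro g hg
    rw [Finset.mem_range] at hg
    have e : s + 1 - 1 - g = (s - 1 - g) + 1 := by omega
    rw [e, Finset.sum_range_succ]
    congr 2
    omega
  rw [Finset.sum_congr rfl h1, Finset.sum_add_distrib, Finset.sum_const, Finset.card_range, nsmul_eq_mul]

theorem Q (s : ℕ) (l : PowerSeries ℚ) : A s + l * B s =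
    X * ((∑ g ∈ range s, (A (g + 2) + (l + 2) * B (g + 2))) + D s +
      (s : PowerSeries ℚ) * (l - (s : PowerSeries ℚ)) * C ^ (s + 2)) := by
  induction s with
  | zero => simp [A, B, D]
  | succ s ih =>
    have hA := A_rec s
    have hB := B_rec s
    rw [Finset.sum_range_succ, D_succ]
    push_cast
    have e3 : C ^ (s + 1 + 2) = C ^ (s + 3) := by congr 1
    rw [e3]
    linear_combination ih + hA + l * hB

theorem main (m : ℕ) : ∀ s l : ℕ, s ≤ l → (∑ g ∈ range s, (G m (g + 1) (s - 1 - g) l : ℚ)) =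
    coeff m (A s + (l : PowerSeries ℚ) * B s) := by
  induction m with
  | zero =>
    intro s l _
    rw [Q, coeff_zero_X_mul]
    apply Finset.sum_eq_zero
    intro g _
    rw [G]
    simp
  | succ m ih =>
    intro s l hsl
    rw [Q, coeff_succ_X_mul, map_add, map_add, map_sum]
    have e1 : (s : PowerSeries ℚ) * ((l : PowerSeries ℚ) - s) * C ^ (s + 2) =
        PowerSeries.C ((s : ℚ) * ((l : ℚ) - s)) * C ^ (s + 2) := by
      simp [map_mul, map_sub, map_natCast]
    rw [e1, coeff_C_mul]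
    have e2 : ∀ g ∈ range s, (G (m + 1) (g + 1) (s - 1 - g) l : ℚ) =
        coeff m (A (g + 2) + ((l : PowerSeries ℚ) + 2) * B (g + 2)) +
          coeff m (∑ c ∈ range (s - 1 - g), C ^ (g + 3 + c)) + ((l : ℚ) - s) * coeff m (C ^ (s + 2)) := by
      intro g hg
      rw [Finset.mem_range] at hg
      rw [G]
      push_cast
      have f1 : (∑ x ∈ range (g + 1 + 1), (G m (x + 1) (g + 1 - x) (l + 2) : ℚ)) =
          coeff m (A (g + 2) + ((l : PowerSeries ℚ) + 2) * B (g + 2)) := by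
        have h := ih (g + 2) (l + 2) (by omega)
        push_cast at h
        exact h
      have f2 : (∑ x ∈ range (s - 1 - g), (L m (g + 1 + 1 + x) : ℚ)) =
          coeff m (∑ c ∈ range (s - 1 - g), C ^ (g + 3 + c)) := by
        rw [map_sum]
        apply Finset.sum_congr rfl
        intro c _
        rw [L_gf]
        congr 2
        omega
      have f3 : ((l - (g + 1) - (s - 1 - g) : ℕ) : ℚ) = (l : ℚ) - s := by
        rw [show l - (g + 1) - (s - 1 - g) = l - s by omega, Nat.cast_sub hsl]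
      have f4 : (L m (g + 1 + (s - 1 - g) + 1) : ℚ) = coeff m (C ^ (s + 2)) := by
        rw [L_gf]
        congr 2
        omega
      rw [f1, f2, f3, f4]
    rw [Finset.sum_congr rfl e2, Finset.sum_add_distrib, Finset.sum_add_distrib, Finset.sum_const,
      Finset.card_range, nsmul_eq_mul]
    unfold D
    rw [map_sum]
    ring

theorem G_gf (n : ℕ) : (G n 1 0 2 : ℚ) = coeff n (A 1 + 2 * B 1) := by
  have h := main n 1 2 (by norm_num)
  simpa using h

theorem f_al : 2 * al = y ^ 2 * u := by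
  unfold al
  linear_combination (y ^ 2 * u) * two_half

theorem f_be : 2 * be = y * (2 - y + y ^ 2) * u ^ 2 := by
  unfold be
  linear_combination (y * (2 - y + y ^ 2) * u ^ 2) * two_half

theorem f_a3 : 3 * a3 = y ^ 2 * u ^ 2 * (2 * y - 1) := by
  unfold a3
  linear_combination (y * (2 * al - y) * u) * three_third + (y * u) * f_al + (y ^ 2 * u) * hu

noncomputable def p2 : PowerSeries ℚ := -y + 3 * y ^ 2 + y ^ 3 + y ^ 4

theorem f_a2 : 2 * a2 = u ^ 3 * p2 := by
  unfold a2 p2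
  linear_combination ((y * (8 * al + 2 * be - 1 - 2 * y) - 3 * (1 - 3 * y) * a3) * u) * two_half +
    (4 * y * u) * f_al + (y * u) * f_be - ((1 - 3 * y) * u) * f_a3 +
    (-4 * y ^ 3 * u ^ 2 + y * (1 + 2 * y) * u * (u * (1 - y) + 1)) * hu

noncomputable def p1 : PowerSeries ℚ := 24 * y ^ 3 * (1 - y) ^ 2 + 12 * y ^ 2 * (2 - y + y ^ 2) * (1 - y) -
  6 * y * (1 + y) * (1 - y) ^ 3 - 2 * (1 - 7 * y) * (2 * y - 1) * y ^ 2 * (1 - y) - 3 * (1 - 3 * y) * p2

theorem f_a1 : 6 * a1 = u ^ 4 * p1 := by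
  unfold a1 p1
  linear_combination (24 * y * u) * f_al + (12 * y * u) * f_be - (2 * (1 - 7 * y) * u) * f_a3 -
    (3 * (1 - 3 * y) * u) * f_a2 + (-24 * y ^ 3 * u ^ 2 * (u * (1 - y) + 1) -
      12 * y ^ 2 * (2 - y + y ^ 2) * u ^ 3 + 6 * y * (1 + y) * u * (u ^ 2 * (1 - y) ^ 2 + u * (1 - y) + 1) +
      2 * (1 - 7 * y) * (2 * y - 1) * y ^ 2 * u ^ 3) * hu

theorem fin6 : 6 * (8 * (A 1 + 2 * B 1)) =
    6 * (16 * (X * (C ^ 2 * u ^ 2) ^ 2 + C ^ 2 * u ^ 2) - 4 * (2 * C ^ 3 * u ^ 3 + 2 * C ^ 2 * u)) := by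
  have hA : A 1 = (1 + y) * (a3 + a2 + a1) := by
    unfold A
    rw [hC]
    push_cast
    ring
  have hB : B 1 = (1 + y) * (al + be) := by
    unfold B
    rw [hC]
    push_cast
    ring
  have hX : X * (C ^ 2 * u ^ 2) ^ 2 = y * (1 + y) ^ 2 * u ^ 4 := by
    have : X * (C ^ 2 * u ^ 2) ^ 2 = (X * C ^ 2) * C ^ 2 * u ^ 4 := by ring
    rw [this, hx, hC]
  rw [hA, hB, hX, hC]
  have hp2 : p2 = -y + 3 * y ^ 2 + y ^ 3 + y ^ 4 := rfl
  have hp1 : p1 = 24 * y ^ 3 * (1 - y) ^ 2 + 12 * y ^ 2 * (2 - y + y ^ 2) * (1 - y) -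
    6 * y * (1 + y) * (1 - y) ^ 3 - 2 * (1 - 7 * y) * (2 * y - 1) * y ^ 2 * (1 - y) - 3 * (1 - 3 * y) * p2 := rfl
  have g2 := f_a2
  have g1 := f_a1
  rw [hp1, hp2] at g1
  rw [hp2] at g2
  linear_combination (16 * (1 + y)) * f_a3 + (24 * (1 + y)) * g2 + (8 * (1 + y)) * g1 + (48 * (1 + y)) * f_al +
    (48 * (1 + y)) * f_be -
    (((1 + y) * 48 * y ^ 2 + 48 * (1 + y) ^ 2) * u * (1 + u * (1 - y) + (u * (1 - y)) ^ 2) +
     ((1 + y) * (16 * y ^ 2 * (2 * y - 1) + 48 * y * (2 - y + y ^ 2)) - 96 * (1 + y) ^ 2) * u ^ 2 *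
        (1 + u * (1 - y)) +
     ((1 + y) * 24 * (-y + 3 * y ^ 2 + y ^ 3 + y ^ 4) + 48 * (1 + y) ^ 3) * u ^ 3) * hu

noncomputable def Z : PowerSeries ℚ := C ^ 2 * u ^ 2

theorem Z_eq : Z * (1 - 4 * X) = 1 := by
  unfold Z
  linear_combination (-4 * u ^ 2) * hx + (u ^ 2 * (C + 1 + y)) * hC + (u * (1 - y) + 1) * hu

theorem Z_eq' : Z = 1 + X * (PowerSeries.C 4 * Z) := by
  have h4 : (PowerSeries.C 4 : PowerSeries ℚ) = 4 := map_ofNat PowerSeries.C 4
  rw [h4]
  linear_combination Z_eq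

theorem Z_coeff (n : ℕ) : coeff n Z = (4 : ℚ) ^ n := by
  induction n with
  | zero => rw [Z_eq', map_add, coeff_zero_X_mul]; simp
  | succ n ih =>
    rw [Z_eq', map_add, coeff_succ_X_mul, coeff_C_mul, ih, coeff_one, if_neg (Nat.succ_ne_zero n)]
    ring

theorem Z2_eq : Z ^ 2 = Z + X * (PowerSeries.C 4 * Z ^ 2) := by
  linear_combination Z * Z_eq'

theorem Z2_coeff (n : ℕ) : coeff n (Z ^ 2) = ((n : ℚ) + 1) * (4 : ℚ) ^ n := by
  induction n with
  | zero =>
    rw [Z2_eq, map_add, coeff_zero_X_mul, Z_coeff]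
    simp
  | succ n ih =>
    rw [Z2_eq, map_add, coeff_succ_X_mul, coeff_C_mul, ih, Z_coeff]
    push_cast
    ring

theorem XZ2_coeff (n : ℕ) : 4 * coeff n (X * Z ^ 2) = (n : ℚ) * (4 : ℚ) ^ n := by
  cases n with
  | zero => rw [coeff_zero_X_mul]; simp
  | succ n =>
    rw [coeff_succ_X_mul, Z2_coeff]
    push_cast
    ring

theorem dC_eq : d⁄dX ℚ C = u * C ^ 3 := by
  have h := congrArg (d⁄dX ℚ) C_eq
  rw [map_add, Derivation.leibniz, Derivation.leibniz_pow] at h
  simp only [Derivation.map_one_eq_zero, derivative_X, smul_eq_mul, nsmul_eq_mul, zero_add] at h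
  push_cast at h
  have h2 : d⁄dX ℚ C * (1 - y) = C ^ 3 := by
    linear_combination C * h + (2 * d⁄dX ℚ C) * hx + (-(d⁄dX ℚ C)) * hC
  linear_combination u * h2 - (d⁄dX ℚ C) * hu

theorem du_eq : d⁄dX ℚ u = u ^ 3 * C ^ 3 := by
  have h := congrArg (d⁄dX ℚ) hu
  rw [Derivation.leibniz, map_sub] at h
  have hy : d⁄dX ℚ y = d⁄dX ℚ C := by
    unfold y
    rw [map_sub, Derivation.map_one_eq_zero, sub_zero]
  simp only [Derivation.map_one_eq_zero, smul_eq_mul, zero_sub, hy, dC_eq] at h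
  linear_combination u * h - (d⁄dX ℚ u) * hu

noncomputable def S : PowerSeries ℚ := C * u

theorem dS_eq : d⁄dX ℚ S = 2 * C ^ 3 * u ^ 3 := by
  unfold S
  rw [Derivation.leibniz, dC_eq, du_eq]
  simp only [smul_eq_mul]
  linear_combination (C ^ 3 * u ^ 3) * hC - (C ^ 3 * u ^ 2) * hu

theorem S_ode : d⁄dX ℚ S = 2 * S + X * (PowerSeries.C 4 * d⁄dX ℚ S) := by
  have h4 : (PowerSeries.C 4 : PowerSeries ℚ) = 4 := map_ofNat PowerSeries.C 4
  rw [dS_eq, h4]
  have h := Z_eq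
  unfold Z at h
  unfold S
  linear_combination (2 * C * u) * h

theorem S_const : coeff 0 S = 1 := by
  have h1 : constantCoeff u = 1 := by
    have h := congrArg constantCoeff hu
    rw [map_mul, map_sub, map_one] at h
    have hy : constantCoeff y = 0 := by unfold y; simp [C_const]
    rw [hy] at h
    simpa using h
  rw [coeff_zero_eq_constantCoeff_apply]
  unfold S
  rw [map_mul, C_const, h1, one_mul]

theorem S_coeff (n : ℕ) : coeff n S = (Nat.centralBinom n : ℚ) := by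
  induction n with
  | zero => rw [S_const]; simp
  | succ n ih =>
    have h := congrArg (coeff n) S_ode
    have h2 : (2 : PowerSeries ℚ) = PowerSeries.C 2 := (map_ofNat PowerSeries.C 2).symm
    rw [map_add, h2, coeff_C_mul, coeff_derivative, ih] at h
    have h3 : coeff n (X * (PowerSeries.C 4 * d⁄dX ℚ S)) = 4 * n * (Nat.centralBinom n : ℚ) := by
      cases n with
      | zero => rw [coeff_zero_X_mul]; simp
      | succ n => rw [coeff_succ_X_mul, coeff_C_mul, coeff_derivative, ih]; push_cast; ring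
    rw [h3] at h
    have h4 : ((n + 1 : ℕ) : ℚ) * (Nat.centralBinom (n + 1) : ℚ) = 2 * (2 * n + 1) * Nat.centralBinom n := by
      exact_mod_cast Nat.succ_mul_centralBinom_succ n
    push_cast at h4
    have h5 : (n : ℚ) + 1 ≠ 0 := by positivity
    apply mul_right_cancel₀ h5
    linear_combination h - h4

theorem S_shift : S = 1 + X * (2 * C ^ 2 * u) := by
  unfold S
  linear_combination hu + u * hC - (2 * u) * hx

theorem fin : 8 * (A 1 + 2 * B 1) = 16 * (X * Z ^ 2 + Z) - 4 * (d⁄dX ℚ S + 2 * C ^ 2 * u) := by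
  have h := fin6
  rw [dS_eq]
  unfold Z
  have h6 : (PowerSeries.C (1 / 6) : PowerSeries ℚ) * 6 = 1 := by
    have : (6 : PowerSeries ℚ) = PowerSeries.C 6 := (map_ofNat PowerSeries.C 6).symm
    rw [this, ← map_mul]
    norm_num
  linear_combination (PowerSeries.C (1 / 6)) * h - (8 * (A 1 + 2 * B 1) - (16 * (X * (C ^ 2 * u ^ 2) ^ 2 +
    C ^ 2 * u ^ 2) - 4 * (2 * C ^ 3 * u ^ 3 + 2 * C ^ 2 * u))) * h6

theorem t : StAlg := by
  intro n
  have h := congrArg (coeff n) fin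
  have k8 : (8 : PowerSeries ℚ) = PowerSeries.C 8 := (map_ofNat PowerSeries.C 8).symm
  have k16 : (16 : PowerSeries ℚ) = PowerSeries.C 16 := (map_ofNat PowerSeries.C 16).symm
  have k4 : (4 : PowerSeries ℚ) = PowerSeries.C 4 := (map_ofNat PowerSeries.C 4).symm
  rw [k8, k16, k4, coeff_C_mul, map_sub, coeff_C_mul, coeff_C_mul, ← G_gf, map_add, map_add, coeff_derivative,
    S_coeff, Z_coeff] at h
  have h1 : coeff n (2 * C ^ 2 * u) = (Nat.centralBinom (n + 1) : ℚ) := by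
    rw [← S_coeff, S_shift, map_add, coeff_succ_X_mul, coeff_one, if_neg (Nat.succ_ne_zero n), zero_add]
  rw [h1] at h
  have h2 := XZ2_coeff n
  have h3 : (Nat.centralBinom (n + 1) : ℚ) = ((2 * (n + 1)).choose (n + 1) : ℕ) := by
    rw [Nat.centralBinom]
  have h4 : (8 : ℚ) * (G n 1 0 2 : ℚ) + 4 * ((n : ℚ) + 2) * ((2 * (n + 1)).choose (n + 1) : ℕ) =
      ((n : ℚ) + 4) * 4 ^ (n + 1) := by
    rw [← h3]
    rw [pow_succ]
    linear_combination h + 4 * h2
  exact_mod_cast h4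

end Pool.Agent.K7.H99.LCALG
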